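import Pool.Agent.helper25.EN.Spec

set_option autoImplicit false

namespace EN

open Finset Real

/-- exchange of `x` and `y` -/
def LOC_T {m : ℕ} (x y : Om m) (z : Om m) : Om m := fun u => xor (z u) (xor (x u) (y u))

theorem LOC_T_T {m : ℕ} (x y z : Om m) : LOC_T x y (LOC_T x y z) = z := by
  funext u
  unfold LOC_T
  cases z u <;> cases x u <;> cases y u <;> rfl

theorem LOC_one {m : ℕ} (Q : Om m → ℝ) (Λ : Finset (Fin m))
    (hQ : ∀ x y : Om m, (∀ u ∈ Λ, x u = y u) → Q x = Q y) (C : Finset (Fin m))
    (x y : Om m) (hxy : ∀ u ∈ Λ, x u = y u) : w Q C x = w Q C y := by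
  unfold w
  refine Finset.sum_nbij' (LOC_T x y) (LOC_T x y) ?_ ?_ ?_ ?_ ?_
  · intro z hz
    rw [mem_filter] at hz ⊢
    refine ⟨mem_univ _, fun u hu => ?_⟩
    have := hz.2 u hu
    unfold LOC_T
    rw [this]
    cases x u <;> cases y u <;> rfl
  · intro z hz
    rw [mem_filter] at hz ⊢
    refine ⟨mem_univ _, fun u hu => ?_⟩
    have := hz.2 u hu
    unfold LOC_T
    rw [this]
    cases x u <;> cases y u <;> rfl
  · intro z _
    exact LOC_T_T x y z
  · intro z _
    exact LOC_T_T x y z
  · intro z _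
    apply hQ
    intro u hu
    unfold LOC_T
    rw [hxy u hu]
    cases z u <;> cases y u <;> rfl

theorem LOC_split {m : ℕ} (Q : Om m → ℝ) (C : Finset (Fin m)) (v : Fin m) (hv : v ∉ C)
    (x : Om m) : w Q C x = w Q (insert v C) x + w Q (insert v C) (fl v x) := by
  unfold w
  rw [← Finset.sum_filter_add_sum_filter_not (univ.filter fun z : Om m => ∀ u ∈ C, z u = x u)
    (fun z => z v = x v)]
  have e1 : ((univ.filter fun z : Om m => ∀ u ∈ C, z u = x u).filter fun z => z v = x v) =
      univ.filter fun z : Om m => ∀ u ∈ insert v C, z u = x u := by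
    ext z
    simp only [mem_filter, mem_univ, true_and, mem_insert, forall_eq_or_imp]
    exact and_comm
  have e2 : ((univ.filter fun z : Om m => ∀ u ∈ C, z u = x u).filter fun z => ¬ z v = x v) =
      univ.filter fun z : Om m => ∀ u ∈ insert v C, z u = fl v x u := by
    ext z
    simp only [mem_filter, mem_univ, true_and, mem_insert, forall_eq_or_imp]
    have h1 : fl v x v = !x v := by simp [fl]
    have h2 : ∀ u ∈ C, fl v x u = x u := by
      intro u hu
      have : u ≠ v := fun h => hv (h ▸ hu)
      simp [fl, this]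
    constructor
    · rintro ⟨h, h'⟩
      refine ⟨?_, fun u hu => (h u hu).trans (h2 u hu).symm⟩
      rw [h1]
      revert h'
      cases z v <;> cases x v <;> simp
    · rintro ⟨h, h'⟩
      refine ⟨fun u hu => (h' u hu).trans (h2 u hu), ?_⟩
      rw [h, h1]
      cases x v <;> simp
  rw [e1, e2]

theorem LOC : LOC_stmt := by
  intro m Q Λ hQ C
  refine ⟨fun x y h => LOC_one Q Λ hQ C x y h, fun v hv hC x => ?_⟩
  have h1 := LOC_split Q C v hC x
  have h2 : w Q (insert v C) x = w Q (insert v C) (fl v x) := by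
    apply LOC_one Q Λ hQ
    intro u hu
    have : u ≠ v := fun h => hv (h ▸ hu)
    simp [fl, this]
  linarith

end EN
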